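import Pool.Agent.K1H53.SD.Link

/-!
Directed polymers on `ℤ` with a general i.i.d. environment: the point-to-point polymer is
superdiffusive in almost every direction, with wandering exponent at least `3/5`.

Proof idea (an extension of the Licea-Newman-Piza argument that needs no curvature assumption):
the mean point-to-point free energies are concave in the endpoint (planarity and shift invariance),
so for typical directions the cost of moving the midpoint of the polymer by `n^κ` is `n^(2κ-1)`,
while the free energy of a tube of radius `n^κ` fluctuates at least by `n^((1-κ)/2)`; if the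
polymer were confined in a set of directions of positive measure there would be a typical direction
`v` in this set, with the two neighbouring directions at distance `10 n^(κ-1)` also in it.

The walk (`pos`) is defined in `Pool/Agent/K1H53/SD/Paths.lean`, the endpoint (`endp`) in
`Pool/Agent/K1H53/SD/Scale.lean`, the energy, the polymer measure, the tube and the wandering
exponent in `Pool/Agent/K1H53/SD/Defs.lean`.  The proof uses the anti-concentration machinery of
the starting module `Pool.Agent.TH967.DP.AC2` (in `Pool/Agent/K1H53/SD/AC.lean`).
-/

namespace Pool.Agent.Results.MP_7d29a1_pr.AlmostEveryDirection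

open MeasureTheory ProbabilityTheory Filter Pool.Agent.K1H53.SD

/-- For every non-constant law of the environment with all exponential moments and every `β > 0`,
for Lebesgue almost every direction `v ∈ (-1,1)`: (1) for every `κ < 3/5` there are infinitely many
`n` for which, with probability larger than `1/8`, the point-to-point polymer measure (walks of `n`
steps from `0` to `endp n v`) of `max_{i≤n} |S_i - i v| ≤ n^κ` is less than `7/8`; (2) the wandering
exponent of the point-to-point polymers in the direction `v` is at least `3/5`. -/
theorem result {Ω : Type*} [MeasurableSpace Ω] (P : Measure Ω) [IsProbabilityMeasure P]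
    (ω : ℕ → ℤ → Ω → ℝ)
    (hmeas : ∀ i y, Measurable (ω i y))
    (hindep : iIndepFun (fun s : ℕ × ℤ => ω s.1 s.2) P)
    (hident : ∀ i y, IdentDistrib (ω i y) (ω 1 0) P P)
    (hexp : ∀ b : ℝ, Integrable (fun x => Real.exp (b * ω 1 0 x)) P)
    (hnc : ¬ ∃ c : ℝ, ∀ᵐ x ∂P, ω 1 0 x = c) (β : ℝ) (hβ : 0 < β) :
    ∀ᵐ v : ℝ, v ∈ Set.Ioo (-1 : ℝ) 1 →
      (∀ κ < (3 : ℝ) / 5, ∃ᶠ n : ℕ in atTop,
        1 / 8 < P.real {x | ppProb β (fun i y => ω i y x) (endp n v)
          (tube n v ((n : ℝ) ^ κ)) < 7 / 8}) ∧
      3 / 5 ≤ wanderingExp P ω β v := by
  have h : IsEnv P ω := ⟨hmeas, hindep, hident⟩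
  filter_upwards [ae_good h hexp hnc hβ] with v hv hv1
  exact ⟨hv hv1, exp_of_good h hv1.1.le hv1.2.le (hv hv1)⟩

end Pool.Agent.Results.MP_7d29a1_pr.AlmostEveryDirection
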