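import Pool.Agent.K1H38.DP.Final

/-!
Directed polymers on `ℤ^d` with a general i.i.d. environment: for almost every drift, the scaling
inequality `ν ≤ (1 + χ)/2 ≤ 3/4`, and in dimension one `χ ≥ 1/8`.

Proof idea: the free energies of polymers of length `n` concentrate at scale `n^c`, `c > χ̄`, so
their means are additive up to `n^c` and the increments of the means in the drift are those of the
limiting free energy `p` up to `n^c`.  The convex function `p` has a quadratic upper bound at almost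
every drift, so the exponential Chebyshev inequality for the polymer measure with a tilt of size
`n^(a-1)` of the first `m ≤ n` steps confines it to a tube of radius `n^a`, `2a - 1 > c`.  In
dimension one a polymer in a tube of radius `n^a` has a free energy spread over the scale
`n^((1-a)/2)`.

The walk (`Step`, `pos`) and the energy are defined in `Pool/Agent/TH967/DP/Defs.lean`; `dot` and
`wgt` in `Pool/Agent/K1H38/DP/Poly.lean`; `frProb` and `tube` in `Pool/Agent/K1H38/DP/Cher.lean`;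
`Zn`, `wanderingExp`, `flucExp` and `tailExp` in `Pool/Agent/K1H38/DP/Main.lean`.  The proof uses the
concentration inequality in `Pool/Agent/K1H53/CN/Conc.lean` and the anti-concentration inequality of
the starting module `Pool.Agent.TH967.DP.AC2` (with weights, in `Pool/Agent/K1H53/SD/AC.lean`).
-/

namespace Pool.Agent.Results.MP_7d29a1_pr.AlmostEveryDrift

open MeasureTheory ProbabilityTheory Filter Pool.Agent.K1H38.DP

/-- For every law of the environment with all exponential moments, every dimension `d ≥ 1` and every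
`β`: (1) `χ(h) ≤ χ̄(h) ≤ 1/2` for all drifts `h`; (2) for Lebesgue almost every drift `h` there is a
slope `v` such that, for all `a > (1 + χ̄(h))/2`, a.s. `P_n^h(max_{i≤n} ‖S_i - i v‖ > n^a)` is at most
`exp(-n^κ)` for all large `n`, with some `κ > 0`, and the wandering exponent of `P_n^h` around the
line of slope `v` is at most `(1 + χ̄(h))/2`; (3) if moreover `d = 1`, `β > 0` and the environment
is not constant, then `sup_y ℙ(|log Z_n^h - y| ≤ n^b)` tends to `0` for all `b < (1 - χ̄(h))/4`, and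
`(1 - χ̄(h))/4 ≤ χ(h)`, `1/8 ≤ χ(h)`, `1/5 ≤ χ̄(h)`. -/
theorem result {d : ℕ} (hd : 1 ≤ d) {Ω : Type*} [MeasurableSpace Ω] (P : Measure Ω)
    [IsProbabilityMeasure P] (ω : ℕ → (Fin d → ℤ) → Ω → ℝ)
    (hmeas : ∀ i y, Measurable (ω i y))
    (hindep : iIndepFun (fun s : ℕ × (Fin d → ℤ) => ω s.1 s.2) P)
    (hident : ∀ i y, IdentDistrib (ω i y) (ω 1 0) P P)
    (hexp : ∀ b : ℝ, Integrable (fun x => Real.exp (b * ω 1 0 x)) P) (β : ℝ) :
    (∀ h : Fin d → ℝ, flucExp P ω β h ≤ tailExp P ω β h ∧ tailExp P ω β h ≤ 1 / 2) ∧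
    ∀ᵐ h : Fin d → ℝ, ∃ v : Fin d → ℝ,
      (∀ a : ℝ, (1 + tailExp P ω β h) / 2 < a → ∃ κ : ℝ, 0 < κ ∧ ∀ᵐ x ∂P, ∀ᶠ n : ℕ in atTop,
        1 - Real.exp (-(n : ℝ) ^ κ) ≤
          frProb β h (fun i y => ω i y x) (tube n v ((n : ℝ) ^ a))) ∧
      wanderingExp P ω β h v ≤ (1 + tailExp P ω β h) / 2 ∧
      (d = 1 → 0 < β → (¬ ∃ c : ℝ, ∀ᵐ x ∂P, ω 1 0 x = c) →
        (∀ b ε : ℝ, b < (1 - tailExp P ω β h) / 4 → 0 < ε → ∀ᶠ n : ℕ in atTop, ∀ y : ℝ,
          P.real {x | |Real.log (Zn β h (fun i z => ω i z x) n) - y| ≤ (n : ℝ) ^ b} ≤ ε) ∧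
        (1 - tailExp P ω β h) / 4 ≤ flucExp P ω β h ∧
        1 / 8 ≤ flucExp P ω β h ∧ 1 / 5 ≤ tailExp P ω β h) := by
  have : NeZero d := ⟨by omega⟩
  have he : TH967.DP.IsEnv P ω := ⟨hmeas, hindep, hident⟩
  have h1 : ∀ h : Fin d → ℝ, flucExp P ω β h ≤ tailExp P ω β h ∧ tailExp P ω β h ≤ 1 / 2 :=
    fun h => ⟨flucExp_le_tailExp he hexp β h, tailExp_le_half he hexp β h⟩
  refine ⟨h1, ?_⟩
  filter_upwards [Pool.Agent.K1H38.DP.final he hexp β] with h hh
  obtain ⟨v, hv1, hv2, hv3⟩ := hh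
  refine ⟨v, hv1, hv2, fun hd1 hβ hnc => ?_⟩
  obtain ⟨h2, h3⟩ := hv3 hd1 hβ hnc
  obtain ⟨h4, h5⟩ := h1 h
  exact ⟨h2, h3, by linarith, by linarith⟩

end Pool.Agent.Results.MP_7d29a1_pr.AlmostEveryDrift
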