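import Pool.Agent.K1H53.SF.FLink

/-!
Directed polymers on `ℤ` with a general i.i.d. environment: the free polymer, with any drift, is
superdiffusive around almost every direction.

Proof idea: for the free polymer with drift `h` started from `0` and from a displaced point,
planarity (likelihood ratio order) and shift invariance bound the loss of mass between two
neighbouring blocks of midpoints by second differences of the mean point-to-point free energies;
these are concave in the endpoint, so the loss is `n^(2κ-1)` for typical directions, while the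
logarithm of the partition function of a tube of radius `n^κ` is spread over a scale at least
`n^((1-κ)/2)`.

The walk (`pos`) is defined in `Pool/Agent/K1H53/SD/Paths.lean`, the energy and the tube in
`Pool/Agent/K1H53/SD/Defs.lean`, the free polymer measure and the wandering exponent in
`Pool/Agent/K1H53/SF/FDefs.lean`.  The proof uses the anti-concentration machinery of
the starting module `Pool.Agent.TH967.DP.AC2` (in `Pool/Agent/K1H53/SD/AC.lean`).
-/

namespace Pool.Agent.Results.MP_7d29a1_pr.FreePolymerWithDrift

open MeasureTheory ProbabilityTheory Filter Pool.Agent.K1H53.SD Pool.Agent.K1H53.SF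

/-- For every non-constant law of the environment with all exponential moments and every `β > 0`,
for Lebesgue almost every `v ∈ (-1,1)`, for every drift `h`: (1) for all `κ < 3/5`, `q > 1/2`,
`p > 2/3` there are infinitely many `n` with
`ℙ(P_n^h(max_{i≤n} |S_i - i v| ≤ n^κ) ≥ q) < p`; (2) the wandering exponent of the free polymer
with drift `h` around the line of slope `v` is at least `3/5`. -/
theorem result {Ω : Type*} [MeasurableSpace Ω] (P : Measure Ω) [IsProbabilityMeasure P]
    (ω : ℕ → ℤ → Ω → ℝ)
    (hmeas : ∀ i y, Measurable (ω i y))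
    (hindep : iIndepFun (fun s : ℕ × ℤ => ω s.1 s.2) P)
    (hident : ∀ i y, IdentDistrib (ω i y) (ω 1 0) P P)
    (hexp : ∀ b : ℝ, Integrable (fun x => Real.exp (b * ω 1 0 x)) P)
    (hnc : ¬ ∃ c : ℝ, ∀ᵐ x ∂P, ω 1 0 x = c) (β : ℝ) (hβ : 0 < β) :
    ∀ᵐ v : ℝ, v ∈ Set.Ioo (-1 : ℝ) 1 → ∀ h : ℝ,
      (∀ κ q p : ℝ, κ < 3 / 5 → 1 / 2 < q → 2 / 3 < p → ∃ᶠ n : ℕ in atTop,
        P.real {x | q ≤ frProb β h (fun i y => ω i y x) (tube n v ((n : ℝ) ^ κ))} < p) ∧
      3 / 5 ≤ wanderingExpF P ω β h v := by
  have he : IsEnv P ω := ⟨hmeas, hindep, hident⟩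
  filter_upwards [Pool.Agent.K1H53.SF.ae_good he hexp hnc hβ] with v hv hv1 h
  exact ⟨hv hv1 h, Pool.Agent.K1H53.SF.exp_of_good he hv1.1.le hv1.2.le (hv hv1 h)⟩

end Pool.Agent.Results.MP_7d29a1_pr.FreePolymerWithDrift
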