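import Pool.Agent.K1H53.KD.Final
import Pool.Agent.K1H65.AL.Main

/-!
Directed polymers on `ℤ^d` with a general i.i.d. environment, `d ≥ 1`: the scaling relation
`χ = 2 ν - 1` at almost every drift at which the Hessian of the free energy is not degenerate.

Proof idea. For almost every drift `h` the limiting free energy `p` has a second order expansion
(Aleksandrov's theorem) and the drifts near `h` with tails of the same kind as at `h` have density
one. Tilting by such drifts confines the polymer to tubes of radius `n^a`, `2a - 1 > χ`, so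
`ν ≤ (1 + χ)/2`. Conversely, if the Hessian of `p` at `h` is not degenerate, the logarithms of the
point-to-point partition functions with end point within `n^a` of `n v` concentrate at the scale
`n^(2a-1)`: the lower tail is bounded by a multi-scale construction which steers the polymer to its
end point with drifts near `h` with good tails, each block of length `θ M` correcting the remaining
displacement. With a block of positions at an intermediate time `s`, `s^a = n^κ`, the free energies
in the tube of radius `n^κ` around the line of velocity `v` and in a disjoint translate of this tube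
agree up to the fluctuations at time `s`; they are independent, so both are close to a constant.
This gives `χ (1 + χ) ≤ 2 χ ν`. No planarity is used.

The walk (`pos`) and the energy are defined in `Pool/Agent/TH967/DP/Defs.lean`, the tube and the
polymer measure `frProb` in `Pool/Agent/K1H38/DP/Cher.lean`, the partition function `Zn` and the
wandering exponent `wanderingExp` in `Pool/Agent/K1H38/DP/Main.lean`, the exponents `chi` and `nu`
in `Pool/Agent/K1H53/KD/Plan.lean`, `chiTyp` in `Pool/Agent/K1H53/KD/Typ.lean`.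
-/

namespace Pool.Agent.Results.MP_7d29a1_pr.KPZRelation

open MeasureTheory ProbabilityTheory Filter Topology Matrix Pool.Agent.K1H38.DP
  Pool.Agent.K1H53.KD

/-- For every `d ≥ 1`, every law of the environment with all exponential moments and every `β`, the
free energies of the polymers with drift `h ∈ ℝ^d` satisfy `𝔼 log Z_n^h / n → p(h)` for all `h`,
with `p` convex, and for Lebesgue almost every `h ∈ ℝ^d` there are a vector `v` and a positive
semidefinite matrix `Q` (gradient and Hessian of `p` at `h`) with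
`p(h + t) = p(h) + v · t + t · Q t / 2 + o(|t|²)` such that the fluctuation exponent `χ = chi(h)`
and the wandering exponent `ν = nu(h, v)` satisfy `0 ≤ χ ≤ 1/2` and `2 ν - 1 ≤ χ`, and, if
`det Q ≠ 0`, then `χ = 2 ν - 1` and `(1 + χ) χ' ≤ 2 χ ν'` for the exponent `χ'` of the fluctuations
in probability and the wandering exponent `ν'` of the problem. In dimension one with `β > 0` and a
non-constant law moreover `(1 - ν)/2 ≤ χ`, `1/5 ≤ χ`, and `3/5 ≤ ν` if `Q ≠ 0`. -/
theorem result {d : ℕ} (hd : 1 ≤ d) {Ω : Type*} [MeasurableSpace Ω] (P : Measure Ω)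
    [IsProbabilityMeasure P] (ω : ℕ → (Fin d → ℤ) → Ω → ℝ)
    (hmeas : ∀ i y, Measurable (ω i y))
    (hindep : iIndepFun (fun s : ℕ × (Fin d → ℤ) => ω s.1 s.2) P)
    (hident : ∀ i y, IdentDistrib (ω i y) (ω 1 0) P P)
    (hexp : ∀ b : ℝ, Integrable (fun x => Real.exp (b * ω 1 0 x)) P) (β : ℝ) :
    ∃ p : (Fin d → ℝ) → ℝ, ConvexOn ℝ Set.univ p ∧
      (∀ h : Fin d → ℝ, Tendsto (fun n : ℕ =>
        (∫ x, Real.log (Zn β h (fun i y => ω i y x) n) ∂P) / n) atTop (𝓝 (p h))) ∧
      ∀ᵐ h : Fin d → ℝ, ∃ (v : Fin d → ℝ) (Q : Matrix (Fin d) (Fin d) ℝ), Q.PosSemidef ∧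
        (∀ ε : ℝ, 0 < ε → ∃ δ : ℝ, 0 < δ ∧ ∀ t : Fin d → ℝ, ∑ k, t k ^ 2 ≤ δ ^ 2 →
          |p (h + t) - (p h + ∑ k, v k * t k + 1 / 2 * (t ⬝ᵥ Q.mulVec t))| ≤ ε * ∑ k, t k ^ 2) ∧
        0 ≤ chi P ω β h ∧ chi P ω β h ≤ 1 / 2 ∧ 2 * nu P ω β h v - 1 ≤ chi P ω β h ∧
        (Q.det ≠ 0 → chi P ω β h = 2 * nu P ω β h v - 1 ∧
          (1 + chi P ω β h) * chiTyp P ω β h ≤ 2 * chi P ω β h * wanderingExp P ω β h v) ∧
        (d = 1 → 0 < β → (¬ ∃ c : ℝ, ∀ᵐ x ∂P, ω 1 0 x = c) →
          (1 - nu P ω β h v) / 2 ≤ chi P ω β h ∧ 1 / 5 ≤ chi P ω β h ∧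
          (Q.det ≠ 0 → 3 / 5 ≤ nu P ω β h v)) := by
  have : NeZero d := ⟨by omega⟩
  exact final2 ⟨hmeas, hindep, hident⟩ hexp β (Pool.Agent.K1H65.AL.t_alex d)
    (Pool.Agent.K1H65.AL.t_pd d)

end Pool.Agent.Results.MP_7d29a1_pr.KPZRelation
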